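import Pool.Agent.Helper57.Env.Stmts

/-!
# Packet F for MP_07d5fa_co: counting clean components of maximization diagrams
-/

namespace Pool.Agent.Helper42.Env

open Set Pool.Agent.Helper57.Env Filter Topology

variable {ι : Type} {s t : ℕ} (F : Par ι s t)

lemma oc_cont (a b : ι) (o : Or F a b) : Continuous (oc F a b o) := by
  unfold oc
  refine (F.c_cont a b o.1).comp ?_
  split_ifs
  · exact continuous_id
  · exact continuous_neg

lemma oc_inj (a b : ι) (o : Or F a b) {σ τ : ℝ} (h : oc F a b o σ = oc F a b o τ) : σ = τ := by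
  unfold oc at h
  have := (F.c_inj a b _ _ _ _ h).2
  split_ifs at this
  · exact this
  · exact neg_injective this

lemma oc_eq (a b : ι) (o : Or F a b) (τ : ℝ) :
    F.f a (oc F a b o τ) = F.f b (oc F a b o τ) := F.c_eq _ _ _ _

lemma oc_open (a b : ι) (o : Or F a b) (τ δ : ℝ) (hδ : 0 < δ) :
    ∀ᶠ y in 𝓝 (oc F a b o τ), F.f a y = F.f b y → ∃ σ, |σ - τ| < δ ∧ oc F a b o σ = y := by
  obtain ⟨O, hO, hm, h⟩ := F.c_open a b o.1 (if o.2 then τ else -τ) δ hδ
  filter_upwards [hO.mem_nhds hm] with y hy hab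
  obtain ⟨σ, hσ, rfl⟩ := h y hy hab
  refine ⟨if o.2 then σ else -σ, ?_, ?_⟩
  · split_ifs at hσ ⊢
    · exact hσ
    · rw [← abs_neg]
      convert hσ using 2
      ring
  · unfold oc
    split_ifs
    · rfl
    · simp

lemma is3_mem {T : Finset ι} (hT : T.card = 3) {a b c : ι} (h : Is3 T a b c) {x : ι}
    (hx : x ∈ T) : x = a ∨ x = b ∨ x = c := by
  classical
  obtain ⟨ha, hb, hc, hab, hac, hbc⟩ := h
  have h1 : ({a, b, c} : Finset ι) = T := by
    apply Finset.eq_of_subset_of_card_le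
    · intro y hy
      simp only [Finset.mem_insert, Finset.mem_singleton] at hy
      rcases hy with rfl | rfl | rfl <;> assumption
    · rw [hT, Finset.card_eq_three.mpr ⟨a, b, c, hab, hac, hbc, rfl⟩]
  rw [← h1] at hx
  simpa using hx

lemma is3_tp {T : Finset ι} (hT : T.card = 3) {a b c : ι} (h : Is3 T a b c) {x : ℝ × ℝ}
    (h1 : F.f a x = F.f b x) (h2 : F.f c x = F.f a x) : x ∈ TP F T := by
  intro y hy z hz
  rcases is3_mem hT h hy with rfl | rfl | rfl <;> rcases is3_mem hT h hz with rfl | rfl | rfl <;>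
    simp [h1, h2]

lemma is3_exists {T : Finset ι} (hT : T.card = 3) {a b : ι} (ha : a ∈ T) (hb : b ∈ T)
    (hab : a ≠ b) : ∃ c, Is3 T a b c := by
  classical
  have h1 : ∃ c ∈ T, c ∉ ({a, b} : Finset ι) := by
    apply Finset.exists_mem_notMem_of_card_lt_card
    rw [hT]
    exact lt_of_le_of_lt Finset.card_le_two (by norm_num)
  obtain ⟨c, hc, hc'⟩ := h1
  simp only [Finset.mem_insert, Finset.mem_singleton, not_or] at hc'
  exact ⟨c, ha, hb, hc, hab, fun h => hc'.1 h.symm, fun h => hc'.2 h.symm⟩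

lemma tp_encard {T : Finset ι} (hT : T.card = 3) : (TP F T).encard ≤ s := by
  classical
  obtain ⟨a, b, c, hab, hac, hbc, rfl⟩ := Finset.card_eq_three.mp hT
  refine le_trans (encard_le_encard ?_) (F.triple a b c hab hac hbc)
  intro x hx
  exact ⟨hx a (by simp) b (by simp), hx b (by simp) c (by simp)⟩

lemma tp_finite {T : Finset ι} (hT : T.card = 3) : (TP F T).Finite :=
  finite_of_encard_le_coe (tp_encard F hT)

lemma zeros_finite {T : Finset ι} (hT : T.card = 3) {a b c : ι} (h : Is3 T a b c)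
    (o : Or F a b) : {τ | F.f c (oc F a b o τ) = F.f a (oc F a b o τ)}.Finite := by
  refine Finite.of_finite_image ((tp_finite F hT).subset ?_)
    (f := oc F a b o) (fun x _ y _ hxy => oc_inj F a b o hxy)
  rintro _ ⟨τ, hτ, rfl⟩
  exact is3_tp F hT h (oc_eq F a b o τ) hτ

/-- The reachable triple points. -/
def Y (T : Finset ι) (v : ℝ × ℝ) : Set (ℝ × ℝ) := {u | Relation.ReflTransGen (Step F T) v u}

/-- A piece of the maximization diagram. -/
def Piece (T : Finset ι) (u : ℝ × ℝ) (a b c : ι) (o : Or F a b) (τ τ' : ℝ) : Prop :=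
  Is3 T a b c ∧ oc F a b o τ = u ∧ τ < τ' ∧
    F.f c (oc F a b o τ') = F.f a (oc F a b o τ') ∧
    ∀ σ ∈ Ioo τ τ', F.f c (oc F a b o σ) < F.f a (oc F a b o σ)

/-- The points of a piece. -/
def PS (T : Finset ι) (u : ℝ × ℝ) (a b c : ι) (o : Or F a b) : Set (ℝ × ℝ) :=
  {x | ∃ τ τ', Piece F T u a b c o τ τ' ∧ ∃ σ ∈ Icc τ τ', oc F a b o σ = x}

/-- The component of the maximization diagram. -/
def KK (T : Finset ι) (v : ℝ × ℝ) : Set (ℝ × ℝ) :=
  Y F T v ∪ ⋃ u ∈ Y F T v, ⋃ a, ⋃ b, ⋃ c, ⋃ o : Or F a b, PS F T u a b c o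

lemma mem_KK {T : Finset ι} {v x : ℝ × ℝ} : x ∈ KK F T v ↔
    x ∈ Y F T v ∨ ∃ u ∈ Y F T v, ∃ a b c, ∃ o : Or F a b, x ∈ PS F T u a b c o := by
  simp [KK]

lemma Y_sub {T : Finset ι} {v : ℝ × ℝ} (hv : v ∈ TP F T) : Y F T v ⊆ TP F T := by
  intro u hu
  rcases Relation.ReflTransGen.cases_tail hu with rfl | ⟨w, _, hw⟩
  · exact hv
  · obtain ⟨a, b, c, _, o, τ, τ', _, _, _, h, _⟩ := hw
    exact h

lemma piece_unique {T : Finset ι} {u : ℝ × ℝ} {a b c : ι} {o : Or F a b} {τ τ' ρ ρ' : ℝ}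
    (h1 : Piece F T u a b c o τ τ') (h2 : Piece F T u a b c o ρ ρ') : τ = ρ ∧ τ' = ρ' := by
  obtain ⟨_, hu, hlt, hz, hneg⟩ := h1
  obtain ⟨_, hu', hlt', hz', hneg'⟩ := h2
  have h : τ = ρ := oc_inj F a b o (hu.trans hu'.symm)
  subst h
  refine ⟨rfl, ?_⟩
  rcases lt_trichotomy τ' ρ' with h | h | h
  · exact absurd hz (hneg' τ' ⟨hlt, h⟩).ne
  · exact h
  · exact absurd hz' (hneg ρ' ⟨hlt', h⟩).ne

lemma PS_compact (T : Finset ι) (u : ℝ × ℝ) (a b c : ι) (o : Or F a b) :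
    IsCompact (PS F T u a b c o) := by
  by_cases h : ∃ τ τ', Piece F T u a b c o τ τ'
  · obtain ⟨τ, τ', h⟩ := h
    have : PS F T u a b c o = oc F a b o '' Icc τ τ' := by
      ext x
      constructor
      · rintro ⟨ρ, ρ', h', σ, hσ, rfl⟩
        obtain ⟨rfl, rfl⟩ := piece_unique F h h'
        exact ⟨σ, hσ, rfl⟩
      · rintro ⟨σ, hσ, rfl⟩
        exact ⟨τ, τ', h, σ, hσ, rfl⟩
    rw [this]
    exact isCompact_Icc.image (oc_cont F a b o)
  · have : PS F T u a b c o = ∅ := by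
      ext x
      simp only [mem_empty_iff_false, iff_false]
      rintro ⟨ρ, ρ', h', _⟩
      exact h ⟨ρ, ρ', h'⟩
    rw [this]
    exact isCompact_empty

lemma KK_compact [Finite ι] {T : Finset ι} (hT : T.card = 3) {v : ℝ × ℝ} (hv : v ∈ TP F T) :
    IsCompact (KK F T v) := by
  have hY : (Y F T v).Finite := (tp_finite F hT).subset (Y_sub F hv)
  refine hY.isCompact.union (hY.isCompact_biUnion fun u _ => isCompact_iUnion fun a =>
    isCompact_iUnion fun b => isCompact_iUnion fun c => isCompact_iUnion fun o =>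
      PS_compact F T u a b c o)

lemma piece_end {T : Finset ι} (hT : T.card = 3) {v u : ℝ × ℝ} (hu : u ∈ Y F T v) {a b c : ι}
    {o : Or F a b} {τ τ' : ℝ} (h : Piece F T u a b c o τ τ') : oc F a b o τ' ∈ Y F T v := by
  obtain ⟨h3, hu', hlt, hz, hneg⟩ := h
  refine Relation.ReflTransGen.tail hu ⟨a, b, c, h3, o, τ, τ', hlt, hu', rfl, ?_, hneg⟩
  exact is3_tp F hT h3 (oc_eq F a b o τ') hz

lemma KK_connected {T : Finset ι} {v : ℝ × ℝ} : IsConnected (KK F T v) := by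
  have hvY : v ∈ Y F T v := Relation.ReflTransGen.refl
  have hYK : ∀ y ∈ Y F T v, ∃ C, C ⊆ KK F T v ∧ v ∈ C ∧ y ∈ C ∧ IsPreconnected C := by
    intro y hy
    induction hy with
    | refl => exact ⟨{v}, by simpa using (mem_KK F).mpr (Or.inl hvY), rfl, rfl,
        isPreconnected_singleton⟩
    | tail h1 h2 ih =>
      rename_i u u'
      obtain ⟨C, hC, hvC, huC, hCc⟩ := ih
      obtain ⟨a, b, c, h3, o, τ, τ', hlt, hu, hu', hTP, hneg⟩ := h2
      refine ⟨C ∪ oc F a b o '' Icc τ τ', ?_, Or.inl hvC, Or.inr ⟨τ', ⟨hlt.le, le_rfl⟩, hu'⟩, ?_⟩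
      · apply union_subset hC
        rintro _ ⟨σ, hσ, rfl⟩
        refine (mem_KK F).mpr (Or.inr ⟨u, h1, a, b, c, o, τ, τ', ⟨h3, hu, hlt, ?_, hneg⟩, σ, hσ,
          rfl⟩)
        rw [hu']
        exact hTP c h3.2.2.1 a h3.1
      · exact IsPreconnected.union u huC ⟨τ, ⟨le_rfl, hlt.le⟩, hu⟩ hCc
          (isPreconnected_Icc.image _ (oc_cont F a b o).continuousOn)
  refine ⟨⟨v, (mem_KK F).mpr (Or.inl hvY)⟩, isPreconnected_of_forall v ?_⟩
  intro y hy
  rcases (mem_KK F).mp hy with hy | ⟨u, hu, a, b, c, o, τ, τ', hP, σ, hσ, rfl⟩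
  · exact hYK y hy
  · obtain ⟨C, hC, hvC, huC, hCc⟩ := hYK u hu
    refine ⟨C ∪ oc F a b o '' Icc τ τ', ?_, Or.inl hvC, Or.inr ⟨σ, hσ, rfl⟩, ?_⟩
    · apply union_subset hC
      rintro _ ⟨ρ, hρ, rfl⟩
      exact (mem_KK F).mpr (Or.inr ⟨u, hu, a, b, c, o, τ, τ', hP, ρ, hρ, rfl⟩)
    · exact IsPreconnected.union u huC ⟨τ, ⟨le_rfl, hP.2.2.1.le⟩, hP.2.1⟩ hCc
        (isPreconnected_Icc.image _ (oc_cont F a b o).continuousOn)

lemma side {R T : Finset ι} {v u : ℝ × ℝ} (hu : u ∈ Y F T v) (hG : Good F R T u) {a b c : ι}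
    (h3 : Is3 T a b c) {o : Or F a b} {τ σ : ℝ} (ho : oc F a b o τ = u) (hσ : τ < σ)
    (hz : ∀ ρ ∈ Ioc τ σ, F.f c (oc F a b o ρ) ≠ F.f a (oc F a b o ρ))
    (hle : F.f c (oc F a b o σ) ≤ F.f a (oc F a b o σ)) : oc F a b o σ ∈ KK F T v := by
  have hcont : Continuous fun ρ => F.f c (oc F a b o ρ) - F.f a (oc F a b o ρ) :=
    ((F.cont c).comp (oc_cont F a b o)).sub ((F.cont a).comp (oc_cont F a b o))
  have hneg : ∀ ρ ∈ Ioc τ σ, F.f c (oc F a b o ρ) < F.f a (oc F a b o ρ) := by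
    intro ρ hρ
    by_contra hcon
    push Not at hcon
    have h1 : (0 : ℝ) ∈ Icc (F.f c (oc F a b o σ) - F.f a (oc F a b o σ))
        (F.f c (oc F a b o ρ) - F.f a (oc F a b o ρ)) := ⟨by linarith, by linarith⟩
    obtain ⟨x, hx, hx0⟩ := intermediate_value_Icc' hρ.2 hcont.continuousOn h1
    exact hz x ⟨lt_of_lt_of_le hρ.1 hx.1, hx.2⟩ (by simpa [sub_eq_zero] using hx0)
  obtain ⟨τ', hlt, hz', hint⟩ := hG.2.2 a b c h3 o τ ho ⟨σ, hσ, hneg⟩
  have hστ : σ < τ' := by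
    by_contra hcon
    push Not at hcon
    exact absurd hz' (hneg τ' ⟨hlt, hcon⟩).ne
  exact (mem_KK F).mpr (Or.inr ⟨u, hu, a, b, c, o, τ, τ',
    ⟨h3, ho, hlt, hz', fun ρ hρ => (hint ρ hρ).1⟩, σ, ⟨hσ.le, hστ.le⟩, rfl⟩)

/-- The maximization diagram of `T`. -/
def MM (T : Finset ι) : Set (ℝ × ℝ) :=
  {x | ∃ a ∈ T, ∃ b ∈ T, a ≠ b ∧ F.f a x = F.f b x ∧ ∀ c ∈ T, F.f c x ≤ F.f a x}

lemma isolated_pt [Finite ι] {R T : Finset ι} (hT : T.card = 3) {v u : ℝ × ℝ}
    (hv : v ∈ TP F T) (hu : u ∈ Y F T v) (hG : Good F R T u) :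
    ∀ᶠ y in 𝓝 u, y ∈ MM F T → y ∈ KK F T v := by
  have huTP : u ∈ TP F T := Y_sub F hv hu
  have h1 : ∀ a b : ι, ∀ᶠ y in 𝓝 u, a ∈ T → b ∈ T → a ≠ b → F.f a y = F.f b y →
      (∀ c ∈ T, F.f c y ≤ F.f a y) → y ∈ KK F T v := by
    intro a b
    by_cases hab : a ∈ T ∧ b ∈ T ∧ a ≠ b
    swap
    · filter_upwards with y h2 h3 h4
      exact absurd ⟨h2, h3, h4⟩ hab
    obtain ⟨ha, hb, hne⟩ := hab
    obtain ⟨c, h3⟩ := is3_exists hT ha hb hne
    obtain ⟨α, τ, hατ⟩ := F.c_surj a b u hne (huTP a ha b hb) (hG.1 a ha b hb hne)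
    have ho1 : oc F a b (α, true) τ = u := by simpa [oc] using hατ
    have ho2 : oc F a b (α, false) (-τ) = u := by simpa [oc] using hατ
    obtain ⟨δ, hδ, hδz⟩ : ∃ δ > 0, ∀ ρ, |ρ - τ| < δ →
        F.f c (oc F a b (α, true) ρ) = F.f a (oc F a b (α, true) ρ) → ρ = τ := by
      have hfin := zeros_finite F hT h3 (α, true)
      have hfin' := hfin.subset (sdiff_subset (t := {τ}))
      have hmem : ({ρ | F.f c (oc F a b (α, true) ρ) = F.f a (oc F a b (α, true) ρ)} \ {τ})ᶜ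
          ∈ 𝓝 τ := hfin'.isClosed.isOpen_compl.mem_nhds (by simp)
      obtain ⟨δ, hδ, hball⟩ := Metric.mem_nhds_iff.mp hmem
      refine ⟨δ, hδ, fun ρ hρ hz => ?_⟩
      have := hball (show ρ ∈ Metric.ball τ δ by simpa [Real.dist_eq] using hρ)
      by_contra hne'
      exact this ⟨hz, hne'⟩
    have hopen := oc_open F a b (α, true) τ δ hδ
    rw [ho1] at hopen
    filter_upwards [hopen] with y hy _ _ _ hy1 hy2
    obtain ⟨σ, hσ, rfl⟩ := hy hy1
    have hle := hy2 c h3.2.2.1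
    rcases lt_trichotomy σ τ with hlt | heq | hgt
    · have hrev : ∀ ρ, oc F a b (α, true) ρ = oc F a b (α, false) (-ρ) := by
        intro ρ
        simp [oc]
      rw [hrev]
      refine side F hu hG h3 ho2 (by linarith) ?_ ?_
      · intro ρ hρ hz
        have h5 : oc F a b (α, false) ρ = oc F a b (α, true) (-ρ) := by
          simp [oc]
        rw [h5] at hz
        have h6 : |(-ρ) - τ| < δ := by
          rw [abs_lt] at hσ ⊢
          constructor <;> linarith [hρ.1, hρ.2, hσ.1, hσ.2]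
        have := hδz (-ρ) h6 hz
        linarith [hρ.1]
      · rw [← hrev]
        exact hle
    · rw [heq, ho1]
      exact (mem_KK F).mpr (Or.inl hu)
    · refine side F hu hG h3 ho1 hgt ?_ hle
      intro ρ hρ hz
      have h6 : |ρ - τ| < δ := by
        rw [abs_lt] at hσ ⊢
        constructor <;> linarith [hρ.1, hρ.2, hσ.1, hσ.2]
      have := hδz ρ h6 hz
      linarith [hρ.1]
  have h2 : ∀ᶠ y in 𝓝 u, ∀ a b : ι, a ∈ T → b ∈ T → a ≠ b → F.f a y = F.f b y →
      (∀ c ∈ T, F.f c y ≤ F.f a y) → y ∈ KK F T v :=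
    eventually_all.mpr fun a => eventually_all.mpr fun b => h1 a b
  filter_upwards [h2] with y hy hM
  obtain ⟨a, ha, b, hb, hab, h3, h4⟩ := hM
  exact hy a b ha hb hab h3 h4

lemma isolated [Finite ι] {R T : Finset ι} (hT : T.card = 3) {v : ℝ × ℝ}
    (hv : v ∈ TP F T) (hK : CleanK F R T v) {x : ℝ × ℝ} (hx : x ∈ KK F T v) :
    ∀ᶠ y in 𝓝 x, y ∈ MM F T → y ∈ KK F T v := by
  rcases (mem_KK F).mp hx with hx | ⟨u, hu, a, b, c, o, τ, τ', hP, σ, hσ, rfl⟩
  · exact isolated_pt F hT hv hx (hK x hx)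
  · rcases eq_or_lt_of_le hσ.1 with h1 | h1
    · rw [← h1, hP.2.1]
      exact isolated_pt F hT hv hu (hK u hu)
    rcases eq_or_lt_of_le hσ.2 with h2 | h2
    · rw [h2]
      have := piece_end F hT hu hP
      exact isolated_pt F hT hv this (hK _ this)
    have hneg := hP.2.2.2.2 σ ⟨h1, h2⟩
    have hab := oc_eq F a b o σ
    have e1 : ∀ᶠ y in 𝓝 (oc F a b o σ), F.f c y < F.f a y :=
      (F.cont c).continuousAt.eventually_lt (F.cont a).continuousAt hneg
    have e2 : ∀ᶠ y in 𝓝 (oc F a b o σ), F.f c y < F.f b y :=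
      (F.cont c).continuousAt.eventually_lt (F.cont b).continuousAt (by rw [← hab]; exact hneg)
    have e3 := oc_open F a b o σ (min (σ - τ) (τ' - σ)) (lt_min (by linarith) (by linarith))
    filter_upwards [e1, e2, e3] with y h3 h4 h5 hM
    obtain ⟨a', ha', b', hb', hne, h6, h7⟩ := hM
    have hT3 := hP.1
    have ha'c : a' ≠ c := by
      rintro rfl
      exact absurd (h7 a hT3.1) (not_le.mpr h3)
    have hb'c : b' ≠ c := by
      rintro rfl
      have := h7 a hT3.1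
      rw [h6] at this
      exact absurd this (not_le.mpr h3)
    have hfab : F.f a y = F.f b y := by
      rcases is3_mem hT hT3 ha' with rfl | rfl | rfl <;>
        rcases is3_mem hT hT3 hb' with rfl | rfl | rfl
      · exact absurd rfl hne
      · exact h6
      · exact absurd rfl hb'c
      · exact h6.symm
      · exact absurd rfl hne
      · exact absurd rfl hb'c
      · exact absurd rfl ha'c
      · exact absurd rfl ha'c
      · exact absurd rfl hne
    obtain ⟨ρ, hρ, rfl⟩ := h5 hfab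
    rw [lt_min_iff, abs_lt, abs_lt] at hρ
    exact (mem_KK F).mpr (Or.inr ⟨u, hu, a, b, c, o, τ, τ', hP, ρ,
      ⟨by linarith [hρ.1.1], by linarith [hρ.2.2]⟩, rfl⟩)

lemma above_KK {R T : Finset ι} (hT : T.card = 3) {v : ℝ × ℝ}
    (hK : CleanK F R T v) {x : ℝ × ℝ} (hx : x ∈ KK F T v) :
    ∀ l ∈ R, l ∉ T → ∀ a ∈ T, F.f a x < F.f l x := by
  rcases (mem_KK F).mp hx with hx | ⟨u, hu, a, b, c, o, τ, τ', hP, σ, hσ, rfl⟩
  · exact (hK x hx).2.1
  · rcases eq_or_lt_of_le hσ.1 with h1 | h1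
    · rw [← h1, hP.2.1]
      exact (hK u hu).2.1
    rcases eq_or_lt_of_le hσ.2 with h2 | h2
    · rw [h2]
      have := piece_end F hT hu hP
      exact (hK _ this).2.1
    obtain ⟨h3, ho, hlt, hz, hneg⟩ := hP
    obtain ⟨τ'', hlt', hz', hint⟩ := (hK u hu).2.2 a b c h3 o τ ho ⟨σ, h1, fun ρ hρ =>
      hneg ρ ⟨hρ.1, lt_of_le_of_lt hρ.2 h2⟩⟩
    have hσ' : σ < τ'' := by
      by_contra hcon
      push Not at hcon
      exact absurd hz' (hneg τ'' ⟨hlt', lt_of_le_of_lt hcon h2⟩).ne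
    obtain ⟨h5, h6⟩ := hint σ ⟨h1, hσ'⟩
    intro l hl hlT a' ha'
    rcases is3_mem hT h3 ha' with rfl | rfl | rfl
    · exact h6 l hl hlT
    · rw [← oc_eq F a a' o σ]
      exact h6 l hl hlT
    · exact h5.trans (h6 l hl hlT)

lemma disjoint_KK {R T T' : Finset ι} (hT : T.card = 3) (hT' : T'.card = 3) (hR : T ⊆ R)
    (hR' : T' ⊆ R) (hne : T ≠ T') {v v' : ℝ × ℝ} (hK : CleanK F R T v)
    (hK' : CleanK F R T' v') : Disjoint (KK F T v) (KK F T' v') := by
  rw [Set.disjoint_left]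
  intro x hx hx'
  have h1 : ∃ l ∈ T', l ∉ T := by
    by_contra hcon
    push Not at hcon
    exact hne (Finset.eq_of_subset_of_card_le hcon (by rw [hT, hT'])).symm
  have h2 : ∃ l ∈ T, l ∉ T' := by
    by_contra hcon
    push Not at hcon
    exact hne (Finset.eq_of_subset_of_card_le hcon (by rw [hT, hT']))
  obtain ⟨l, hl, hlT⟩ := h1
  obtain ⟨l', hl', hlT'⟩ := h2
  have h3 := above_KK F hT hK hx l (hR' hl) hlT l' hl'
  have h4 := above_KK F hT' hK' hx' l' (hR hl') hlT' l hl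
  exact lt_asymm h3 h4

/-- The curve of two functions. -/
def Cu (a b : ι) : Set (ℝ × ℝ) := {x | F.f a x = F.f b x}

open Classical in
/-- The components of the curve. -/
noncomputable def comps (a b : ι) : Finset (Set (ℝ × ℝ)) :=
  (F.P a b).image (fun x => connectedComponentIn (Cu F a b) x) ∪
    Finset.univ.image (fun α => connectedComponentIn (Cu F a b) (F.c a b α 0))

lemma comps_card (a b : ι) : (comps F a b).card ≤ 2 * t := by
  classical
  unfold comps
  refine (Finset.card_union_le _ _).trans ?_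
  have h1 := (Finset.card_image_le (s := F.P a b)
    (f := fun x => connectedComponentIn (Cu F a b) x)).trans (F.P_card a b)
  have h2 := (Finset.card_image_le (s := (Finset.univ : Finset (Fin (F.m a b))))
    (f := fun α => connectedComponentIn (Cu F a b) (F.c a b α 0)))
  rw [Finset.card_univ, Fintype.card_fin] at h2
  have h3 := h2.trans (F.m_le a b)
  omega

lemma mem_comps {a b : ι} (hab : a ≠ b) {v : ℝ × ℝ} (hv : F.f a v = F.f b v) :
    connectedComponentIn (Cu F a b) v ∈ comps F a b := by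
  classical
  unfold comps
  rw [Finset.mem_union]
  by_cases hP : v ∈ F.P a b
  · left
    exact Finset.mem_image_of_mem _ hP
  · right
    obtain ⟨α, τ, rfl⟩ := F.c_surj a b v hab hv hP
    rw [Finset.mem_image]
    refine ⟨α, Finset.mem_univ _, ?_⟩
    apply connectedComponentIn_eq
    have h1 : IsPreconnected (range (F.c a b α)) :=
      isPreconnected_range (F.c_cont a b α)
    have h2 : range (F.c a b α) ⊆ Cu F a b := by
      rintro _ ⟨σ, rfl⟩
      exact F.c_eq a b α σ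
    exact h1.subset_connectedComponentIn (mem_range_self 0) h2 (mem_range_self τ)

lemma exists_pt (S : Set (ℝ × ℝ)) (hS : IsCompact S) : ∃ p, p ∉ S := by
  by_contra hcon
  push Not at hcon
  have : S = univ := eq_univ_of_forall hcon
  rw [this] at hS
  exact noncompact_univ (ℝ × ℝ) hS

/-- Packet F: counting clean components of maximization diagrams. -/
theorem stmtClean2 (hA : StmtOuter) (hB : StmtNest) : StmtClean2 := by
  classical
  intro ι _ s t F R
  set Z : Set (Finset ι × (ℝ × ℝ)) := {z | z.1 ⊆ R ∧ z.1.card = 3 ∧ z.2 ∈ TP F z.1 ∧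
      CleanK F R z.1 z.2} with hZ
  have hZfin : Z.Finite := by
    have h1 : Z ⊆ ⋃ T ∈ {T : Finset ι | T.card = 3}, (fun v => (T, v)) '' (TP F T) := by
      rintro ⟨T, v⟩ ⟨_, h2, h3, _⟩
      simp only [mem_iUnion]
      exact ⟨T, h2, v, h3, rfl⟩
    refine Finite.subset (Finite.biUnion (Set.toFinite _) ?_) h1
    intro T hT
    exact (tp_finite F hT).image _
  obtain ⟨p, hp⟩ : ∃ p, ∀ z ∈ Z, p ∉ KK F z.1 z.2 := by
    obtain ⟨p, hp⟩ := exists_pt (⋃ z ∈ Z, KK F z.1 z.2)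
      (hZfin.isCompact_biUnion fun z hz => KK_compact F hz.2.1 hz.2.2.1)
    refine ⟨p, fun z hz hpz => hp ?_⟩
    simp only [mem_iUnion]
    exact ⟨z, hz, hpz⟩
  have hchoice : ∀ z ∈ Z, ∃ ab : ι × ι, ab.1 ∈ z.1 ∧ ab.2 ∈ z.1 ∧ ab.1 ≠ ab.2 ∧
      ∀ Γ : Set (ℝ × ℝ), IsPreconnected Γ → (∀ x ∈ Γ, F.f ab.1 x = F.f ab.2 x) →
        (Γ ∩ KK F z.1 z.2).Nonempty →
        Disjoint Γ (connectedComponentIn (KK F z.1 z.2)ᶜ p) := by
    intro z hz
    obtain ⟨hzR, hz3, hzT, hzK⟩ := hz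
    have hne : z.1.Nonempty := by
      rw [← Finset.card_pos, hz3]
      norm_num
    obtain ⟨a, ha, h⟩ := hA z.1 F.f F.cont hne (KK F z.1 z.2)
      (interior ((MM F z.1)ᶜ ∪ KK F z.1 z.2)) p (KK_compact F hz3 hzT) (KK_connected F)
      isOpen_interior (by
        intro x hx
        rw [mem_interior_iff_mem_nhds]
        filter_upwards [isolated F hz3 hzT hzK hx] with y hy
        by_cases hyM : y ∈ MM F z.1
        · exact Or.inr (hy hyM)
        · exact Or.inl hyM) (by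
        intro x hx a ha b hb hab h1 h2
        rcases interior_subset hx with h3 | h3
        · exact absurd ⟨a, ha, b, hb, hab, h1, h2⟩ h3
        · exact h3) (hp z ⟨hzR, hz3, hzT, hzK⟩)
    obtain ⟨b, hb, hba⟩ : ∃ b ∈ z.1, b ≠ a := by
      apply Finset.exists_mem_ne
      rw [hz3]
      norm_num
    exact ⟨(a, b), ha, hb, hba.symm, h b hb hba⟩
  rcases Z.eq_empty_or_nonempty with hemp | ⟨z₀, hz₀⟩
  · rw [hemp]
    simp
  have hne : Nonempty (ι × ι) := by
    obtain ⟨ab, _⟩ := hchoice z₀ hz₀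
    exact ⟨ab⟩
  choose! φ hφ using hchoice
  set ψ : Finset ι × (ℝ × ℝ) → ι × ι × Set (ℝ × ℝ) := fun z =>
    ((φ z).1, (φ z).2, connectedComponentIn (Cu F (φ z).1 (φ z).2) z.2) with hψ
  have hmemcurve : ∀ z ∈ Z, F.f (φ z).1 z.2 = F.f (φ z).2 z.2 := fun z hz =>
    hz.2.2.1 _ (hφ z hz).1 _ (hφ z hz).2.1
  have hvK : ∀ z : Finset ι × (ℝ × ℝ), z.2 ∈ KK F z.1 z.2 := fun z =>
    (mem_KK F).mpr (Or.inl Relation.ReflTransGen.refl)
  have hdisj : ∀ z ∈ Z, Disjoint (connectedComponentIn (Cu F (φ z).1 (φ z).2) z.2)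
      (connectedComponentIn (KK F z.1 z.2)ᶜ p) := by
    intro z hz
    refine (hφ z hz).2.2.2 _ isPreconnected_connectedComponentIn ?_ ?_
    · intro x hx
      exact (connectedComponentIn_subset (Cu F (φ z).1 (φ z).2) z.2 hx :)
    · exact ⟨z.2, mem_connectedComponentIn (hmemcurve z hz), hvK z⟩
  have hsep : ∀ z ∈ Z, ∀ z' ∈ Z, z.1 ≠ z'.1 →
      connectedComponentIn (Cu F (φ z).1 (φ z).2) z.2 =
        connectedComponentIn (Cu F (φ z').1 (φ z').2) z'.2 →
      Disjoint (KK F z.1 z.2) (connectedComponentIn (KK F z'.1 z'.2)ᶜ p) := by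
    intro z hz z' hz' hne hΓ
    rw [Set.disjoint_left]
    intro x hx hx'
    have hKK := disjoint_KK F hz.2.1 hz'.2.1 hz.1 hz'.1 hne hz.2.2.2 hz'.2.2.2
    have h1 : KK F z.1 z.2 ⊆ (KK F z'.1 z'.2)ᶜ := hKK.subset_compl_right
    have h2 : KK F z.1 z.2 ⊆ connectedComponentIn (KK F z'.1 z'.2)ᶜ p := by
      have h3 := (KK_connected F (T := z.1) (v := z.2)).isPreconnected.subset_connectedComponentIn
        hx h1
      rwa [← connectedComponentIn_eq hx'] at h3
    have h4 : z.2 ∈ connectedComponentIn (Cu F (φ z').1 (φ z').2) z'.2 := by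
      rw [← hΓ]
      exact mem_connectedComponentIn (hmemcurve z hz)
    exact Set.disjoint_left.mp (hdisj z' hz') h4 (h2 (hvK z))
  have hT : ∀ z ∈ Z, ∀ z' ∈ Z, ψ z = ψ z' → z.1 = z'.1 := by
    intro z hz z' hz' hzz
    by_contra hne
    simp only [hψ, Prod.mk.injEq] at hzz
    obtain ⟨_, _, hΓ⟩ := hzz
    have hKK := disjoint_KK F hz.2.1 hz'.2.1 hz.1 hz'.1 hne hz.2.2.2 hz'.2.2.2
    exact hB (KK F z.1 z.2) (KK F z'.1 z'.2) p (KK_compact F hz.2.1 hz.2.2.1) (KK_connected F)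
      (KK_compact F hz'.2.1 hz'.2.2.1) (KK_connected F) hKK (hp z hz) (hp z' hz')
      ⟨hsep z' hz' z hz (Ne.symm hne) hΓ.symm, hsep z hz z' hz' hne hΓ⟩
  -- counting
  rw [Set.ncard_eq_toFinset_card Z hZfin]
  set Zf := hZfin.toFinset with hZf
  have hmemZf : ∀ z, z ∈ Zf ↔ z ∈ Z := fun z => hZfin.mem_toFinset
  have hfib : Zf.card ≤ s * (Zf.image ψ).card := by
    apply Finset.card_le_mul_card_image
    intro g hg
    obtain ⟨z, hz, rfl⟩ := Finset.mem_image.mp hg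
    rw [hmemZf] at hz
    have h1 : (Zf.filter fun x => ψ x = ψ z) ⊆
        ((tp_finite F hz.2.1).toFinset).image (fun v => (z.1, v)) := by
      intro x hx
      rw [Finset.mem_filter, hmemZf] at hx
      have h2 := hT x hx.1 z hz hx.2
      rw [Finset.mem_image]
      refine ⟨x.2, ?_, ?_⟩
      · rw [Set.Finite.mem_toFinset, ← h2]
        exact hx.1.2.2.1
      · rw [← h2]
    refine (Finset.card_le_card h1).trans (Finset.card_image_le.trans ?_)
    have h3 := tp_encard F hz.2.1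
    rw [(tp_finite F hz.2.1).encard_eq_coe_toFinset_card] at h3
    exact_mod_cast h3
  have himg : (Zf.image ψ).card ≤ (R ×ˢ R).card * (2 * t) := by
    have h1 : Zf.image ψ ⊆ (R ×ˢ R).biUnion (fun ab =>
        (comps F ab.1 ab.2).image (fun Γ => (ab.1, ab.2, Γ))) := by
      intro g hg
      obtain ⟨z, hz, rfl⟩ := Finset.mem_image.mp hg
      rw [hmemZf] at hz
      rw [Finset.mem_biUnion]
      refine ⟨φ z, ?_, ?_⟩
      · rw [Finset.mem_product]
        exact ⟨hz.1 (hφ z hz).1, hz.1 (hφ z hz).2.1⟩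
      · rw [Finset.mem_image]
        exact ⟨_, mem_comps F (hφ z hz).2.2.1 (hmemcurve z hz), rfl⟩
    refine (Finset.card_le_card h1).trans (Finset.card_biUnion_le_card_mul _ _ _ ?_)
    intro ab _
    exact Finset.card_image_le.trans (comps_card F _ _)
  calc Zf.card ≤ s * (Zf.image ψ).card := hfib
    _ ≤ s * ((R ×ˢ R).card * (2 * t)) := Nat.mul_le_mul_left _ himg
    _ = 2 * s * t * R.card ^ 2 := by
      rw [Finset.card_product]
      ring

end Pool.Agent.Helper42.Env
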